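import Pool.Agent.H53.NR.Common

namespace Pool.NR
namespace B2D

variable {p : ℕ} [Fact p.Prime]

theorem step (a b1 b2 c1 c2 g1 g2 k h h2 : ZMod p) (hg1 : g1 ≠ 0) (hg2 : g2 ≠ 0) :
    Eq2b (T2b a b1 b2 c1 c2 1 0 0 0)
      (T2b (g1 ^ 2 * a + g1 * h * (b1 + c1) + h2 * (b2 + c2) + h ^ 2) (g1 * b1 + k * b2 + h)
        (g2 * b2) (g1 * c1 + k * c2 + h) (g2 * c2) 1 0 0 0) := by
  refine C53.mk2b (g1 ^ 2) (g1 * h) h2 g1 0 k g2 (pow_ne_zero 2 hg1) (by simp [hg1, hg2])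
    ?_ ?_ ?_ ?_ ?_ ?_ ?_ ?_ ?_ <;> ring

theorem eqT {a b1 b2 c1 c2 m11 m12 m21 m22 a' b1' b2' c1' c2' : ZMod p} (h : a = a')
    (h1 : b1 = b1') (h2 : b2 = b2') (h3 : c1 = c1') (h4 : c2 = c2') :
    T2b a b1 b2 c1 c2 m11 m12 m21 m22 = T2b a' b1' b2' c1' c2' m11 m12 m21 m22 := by
  rw [h, h1, h2, h3, h4]

/-- a version of `step` with prescribed targets. -/
theorem step' (a b1 b2 c1 c2 g1 g2 k h h2 a' b1' b2' c1' c2' : ZMod p) (hg1 : g1 ≠ 0)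
    (hg2 : g2 ≠ 0) (ea : a' = g1 ^ 2 * a + g1 * h * (b1 + c1) + h2 * (b2 + c2) + h ^ 2)
    (eb1 : b1' = g1 * b1 + k * b2 + h) (eb2 : b2' = g2 * b2) (ec1 : c1' = g1 * c1 + k * c2 + h)
    (ec2 : c2' = g2 * c2) :
    Eq2b (T2b a b1 b2 c1 c2 1 0 0 0) (T2b a' b1' b2' c1' c2' 1 0 0 0) := by
  rw [ea, eb1, eb2, ec1, ec2]
  exact step a b1 b2 c1 c2 g1 g2 k h h2 hg1 hg2

theorem caseA (hK : KREStmt) (a b1 c1 : ZMod p) :
    ∃ B', NF2bD B' ∧ Eq2b (T2b a b1 0 c1 0 1 0 0 0) B' := by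
  have s1 := step a b1 0 c1 0 1 1 0 (-b1) 0 one_ne_zero one_ne_zero
  have e : (T2b (1 ^ 2 * a + 1 * (-b1) * (b1 + c1) + 0 * (0 + 0) + (-b1) ^ 2)
      (1 * b1 + 0 * 0 + (-b1)) (1 * 0) (1 * c1 + 0 * 0 + (-b1)) (1 * 0) 1 0 0 0 :
      Fin 3 → Fin 3 → ZMod p) = T2b (a - b1 * c1) 0 0 (c1 - b1) 0 1 0 0 0 := by
    apply eqT <;> ring
  rw [e] at s1
  generalize a - b1 * c1 = a' at s1
  by_cases hc : c1 - b1 = 0
  · rw [hc] at s1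
    obtain ⟨t, ht, hq⟩ := C53.sqScale hK a'
    refine ⟨_, NF2bD.d2 _ hq, C53.trans2b s1 (step' _ _ _ _ _ t 1 0 0 0 _ _ _ _ _ ht one_ne_zero
      ?_ ?_ ?_ ?_ ?_)⟩ <;> ring
  · refine ⟨_, NF2bD.d1 ((c1 - b1)⁻¹ ^ 2 * a'), C53.trans2b s1
      (step' _ _ _ _ _ ((c1 - b1)⁻¹) 1 0 0 0 _ _ _ _ _ (inv_ne_zero hc) one_ne_zero
      ?_ ?_ ?_ ?_ ?_)⟩
    · ring
    · ring
    · ring
    · field_simp; ring
    · ring

theorem caseB (hK : KREStmt) (a b1 b2 c1 c2 : ZMod p) (hbc : b2 ≠ c2) :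
    ∃ B', NF2bD B' ∧ Eq2b (T2b a b1 b2 c1 c2 1 0 0 0) B' := by
  have hne : b2 - c2 ≠ 0 := sub_ne_zero.2 hbc
  obtain ⟨a', s1⟩ : ∃ a', Eq2b (T2b a b1 b2 c1 c2 1 0 0 0) (T2b a' 0 b2 0 c2 1 0 0 0) := by
    refine ⟨_, step' _ _ _ _ _ 1 1 ((c1 - b1) / (b2 - c2))
      (-b1 - (c1 - b1) / (b2 - c2) * b2) 0 _ _ _ _ _ one_ne_zero one_ne_zero rfl ?_ ?_ ?_ ?_⟩
    · ring
    · ring
    · field_simp; ring
    · ring
  by_cases hb : b2 = 0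
  · subst hb
    have hc : c2 ≠ 0 := fun h => hbc h.symm
    refine ⟨_, NF2bD.d4, C53.trans2b s1 (step' _ _ _ _ _ 1 c2⁻¹ 0 0 (-a' / c2) _ _ _ _ _
      one_ne_zero (inv_ne_zero hc) ?_ ?_ ?_ ?_ ?_)⟩
    · field_simp; ring
    · ring
    · ring
    · ring
    · field_simp
  · have s2 : Eq2b (T2b a' 0 b2 0 c2 1 0 0 0) (T2b a' 0 1 0 (c2 / b2) 1 0 0 0) := by
      refine step' _ _ _ _ _ 1 b2⁻¹ 0 0 0 _ _ _ _ _ one_ne_zero (inv_ne_zero hb) ?_ ?_ ?_ ?_ ?_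
      · ring
      · ring
      · field_simp
      · ring
      · field_simp
    have hγ : c2 / b2 ≠ 1 := by
      intro h
      rw [div_eq_one_iff_eq hb] at h
      exact hbc h.symm
    have s3 := C53.trans2b s1 s2
    generalize c2 / b2 = γ at s3 hγ
    by_cases h1 : γ = -1
    · subst h1
      have hp : p ≠ 2 := by
        intro hp
        apply hγ
        have := C53.two_eq hp
        linear_combination -this
      obtain ⟨t, ht, hq⟩ := C53.sqScale hK a'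
      refine ⟨_, NF2bD.d5 _ hp hq, C53.trans2b s3 (step' _ _ _ _ _ t 1 0 0 0 _ _ _ _ _ ht
        one_ne_zero ?_ ?_ ?_ ?_ ?_)⟩ <;> ring
    · have h1' : 1 + γ ≠ 0 := fun h => h1 (by linear_combination h)
      refine ⟨_, NF2bD.d3 γ hγ h1, C53.trans2b s3 (step' _ _ _ _ _ 1 1 0 0 (-a' / (1 + γ))
        _ _ _ _ _ one_ne_zero one_ne_zero ?_ ?_ ?_ ?_ ?_)⟩
      · field_simp; ring
      · ring
      · ring
      · ring
      · ring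

theorem caseC (a b1 b2 c1 : ZMod p) (hb : b2 ≠ 0) :
    ∃ B', NF2bD B' ∧ Eq2b (T2b a b1 b2 c1 b2 1 0 0 0) B' := by
  obtain ⟨a', s1⟩ : ∃ a', Eq2b (T2b a b1 b2 c1 b2 1 0 0 0)
      (T2b a' 0 1 (c1 - b1) 1 1 0 0 0) := by
    refine ⟨_, step' _ _ _ _ _ 1 b2⁻¹ 0 (-b1) 0 _ _ _ _ _ one_ne_zero (inv_ne_zero hb) rfl
      ?_ ?_ ?_ ?_⟩
    · ring
    · field_simp
    · ring
    · field_simp
  obtain ⟨a'', s, hs, s2⟩ : ∃ a'' s, Bit s ∧ Eq2b (T2b a' 0 1 (c1 - b1) 1 1 0 0 0)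
      (T2b a'' 0 1 s 1 1 0 0 0) := by
    obtain ⟨t, ht, hq⟩ := C53.bitScale (c1 - b1)
    refine ⟨_, _, hq, step' _ _ _ _ _ t 1 0 0 0 _ _ _ _ _ ht one_ne_zero rfl ?_ ?_ ?_ ?_⟩ <;>
      ring
  have s3 := C53.trans2b s1 s2
  by_cases hp : p = 2
  · have h2 := C53.two_eq hp
    rcases hs with rfl | rfl
    · refine ⟨_, NF2bD.d6 0 (Or.inl rfl), C53.trans2b s3 (step' _ _ _ _ _ 1 1 (-a'') a'' 0
        _ _ _ _ _ one_ne_zero one_ne_zero ?_ ?_ ?_ ?_ ?_)⟩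
      · rcases C53.zero_or_one_of_two hp a'' with rfl | rfl
        · ring
        · linear_combination -h2
      · ring
      · ring
      · ring
      · ring
    · rcases C53.zero_or_one_of_two hp a'' with rfl | rfl
      · exact ⟨_, NF2bD.d6 1 (Or.inr rfl), s3⟩
      · exact ⟨_, NF2bD.d7 hp, s3⟩
  · have h2 := C53.two_ne hp
    refine ⟨_, NF2bD.d6 s hs, C53.trans2b s3 (step' _ _ _ _ _ 1 1 0 0 (-a'' / 2)
        _ _ _ _ _ one_ne_zero one_ne_zero ?_ ?_ ?_ ?_ ?_)⟩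
    · field_simp; ring
    · ring
    · ring
    · ring
    · ring

end B2D

theorem b2d (h1 : KREStmt) : B2DStmt := by
  intro p _ a b1 b2 c1 c2
  by_cases h : b2 = c2
  · subst h
    by_cases h0 : b2 = 0
    · subst h0
      exact B2D.caseA h1 a b1 c1
    · exact B2D.caseC a b1 b2 c1 h0
  · exact B2D.caseB h1 a b1 b2 c1 c2 h

end Pool.NR
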