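import Pool.Agent.H53.NR.Common

namespace Pool.NR
namespace B2E

variable {p : ℕ} [Fact p.Prime]

theorem step (a b1 b2 c1 c2 g1 g2 h k a' b1' b2' c1' c2' : ZMod p) (hg1 : g1 ≠ 0)
    (hg2 : g2 ≠ 0) (ea : a' = g1 * g2 * a + g1 * h * (b1 + c1) + g2 * k * (b2 + c2) + h * k)
    (eb1 : b1' = g1 * b1) (eb2 : b2' = g2 * b2 + h) (ec1 : c1' = g1 * c1 + k)
    (ec2 : c2' = g2 * c2) :
    Eq2b (T2b a b1 b2 c1 c2 0 1 0 0) (T2b a' b1' b2' c1' c2' 0 1 0 0) := by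
  subst ea eb1 eb2 ec1 ec2
  refine C53.mk2b (g1 * g2) (g1 * h) (g2 * k) g1 0 0 g2 (mul_ne_zero hg1 hg2)
    (by simp [hg1, hg2]) ?_ ?_ ?_ ?_ ?_ ?_ ?_ ?_ ?_ <;> ring

end B2E

theorem b2e : B2EStmt := by
  intro p _ a b1 b2 c1 c2
  obtain ⟨a', s1⟩ : ∃ a', Eq2b (T2b a b1 b2 c1 c2 0 1 0 0) (T2b a' b1 0 0 c2 0 1 0 0) := by
    refine ⟨_, B2E.step _ _ _ _ _ 1 1 (-b2) (-c1) _ _ _ _ _ one_ne_zero one_ne_zero rfl
      ?_ ?_ ?_ ?_⟩ <;> ring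
  by_cases hb : b1 = 0
  · subst hb
    by_cases hc : c2 = 0
    · subst hc
      obtain ⟨t, ht, hq⟩ := C53.bitScale a'
      refine ⟨_, NF2bE.e4 _ hq, C53.trans2b s1 (B2E.step _ _ _ _ _ t 1 0 0 _ _ _ _ _ ht
        one_ne_zero ?_ ?_ ?_ ?_ ?_)⟩ <;> ring
    · obtain ⟨t, ht, hq⟩ := C53.bitScale (c2⁻¹ * a')
      refine ⟨_, NF2bE.e3 _ hq, C53.trans2b s1 (B2E.step _ _ _ _ _ t c2⁻¹ 0 0 _ _ _ _ _ ht
        (inv_ne_zero hc) ?_ ?_ ?_ ?_ ?_)⟩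
      · ring
      · ring
      · ring
      · ring
      · field_simp
  · by_cases hc : c2 = 0
    · subst hc
      obtain ⟨t, ht, hq⟩ := C53.bitScale (b1⁻¹ * a')
      refine ⟨_, NF2bE.e2 _ hq, C53.trans2b s1 (B2E.step _ _ _ _ _ b1⁻¹ t 0 0 _ _ _ _ _
        (inv_ne_zero hb) ht ?_ ?_ ?_ ?_ ?_)⟩
      · ring
      · field_simp
      · ring
      · ring
      · ring
    · refine ⟨_, NF2bE.e1 (b1⁻¹ * c2⁻¹ * a'), C53.trans2b s1 (B2E.step _ _ _ _ _ b1⁻¹ c2⁻¹ 0 0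
        _ _ _ _ _ (inv_ne_zero hb) (inv_ne_zero hc) ?_ ?_ ?_ ?_ ?_)⟩
      · ring
      · field_simp
      · ring
      · ring
      · field_simp

end Pool.NR
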