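import Pool.Agent.H53.NR.Common

namespace Pool.NR
namespace B2J

variable {p : ℕ} [Fact p.Prime]

theorem step (a b1 b2 c1 c2 g11 g12 g21 g22 a' b1' b2' c1' c2' : ZMod p)
    (hg : g11 * g22 - g12 * g21 ≠ 0)
    (ea : a' = (g11 * g22 - g12 * g21) * a) (eb1 : b1' = g11 * b1 + g21 * b2)
    (eb2 : b2' = g12 * b1 + g22 * b2) (ec1 : c1' = g11 * c1 + g21 * c2)
    (ec2 : c2' = g12 * c1 + g22 * c2) :
    Eq2b (T2b a b1 b2 c1 c2 0 1 (-1) 0) (T2b a' b1' b2' c1' c2' 0 1 (-1) 0) := by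
  subst ea eb1 eb2 ec1 ec2
  refine C53.mk2b (g11 * g22 - g12 * g21) 0 0 g11 g12 g21 g22 hg hg
    ?_ ?_ ?_ ?_ ?_ ?_ ?_ ?_ ?_ <;> ring

end B2J

theorem b2j : B2JStmt := by
  intro p _ a b1 b2 c1 c2
  obtain ⟨a', s1⟩ : ∃ a', Eq2b (T2b a b1 b2 c1 c2 0 1 (-1) 0)
      (T2b a' 0 0 (b1 + c1) (b2 + c2) 0 1 (-1) 0) := by
    refine ⟨a + (-b2) * (b1 + c1) + b1 * (b2 + c2), C53.mk2b 1 (-b2) b1 1 0 0 1 one_ne_zero
      (by simp) ?_ ?_ ?_ ?_ ?_ ?_ ?_ ?_ ?_⟩ <;> ring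
  generalize b1 + c1 = c at s1
  generalize b2 + c2 = d at s1
  by_cases h0 : c = 0 ∧ d = 0
  · obtain ⟨rfl, rfl⟩ := h0
    obtain ⟨t, ht, hq⟩ := C53.bitScale a'
    refine ⟨_, NF2bJ.j1 _ hq, C53.trans2b s1 (B2J.step _ _ _ _ _ t 0 0 1 _ _ _ _ _
      (by simpa using ht) ?_ ?_ ?_ ?_ ?_)⟩ <;> ring
  · obtain ⟨x, y, hxy⟩ : ∃ x y : ZMod p, x * c + y * d = 1 := by
      by_cases hc : c = 0
      · have hd : d ≠ 0 := fun h => h0 ⟨hc, h⟩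
        exact ⟨0, d⁻¹, by field_simp; ring⟩
      · exact ⟨c⁻¹, 0, by field_simp; ring⟩
    obtain ⟨t, ht, hq⟩ := C53.bitScale a'
    refine ⟨_, NF2bJ.j2 _ hq, C53.trans2b s1 (B2J.step _ _ _ _ _ x (-t * d) y (t * c) _ _ _ _ _
      ?_ ?_ ?_ ?_ ?_ ?_)⟩
    · have : x * (t * c) - -t * d * y = t := by linear_combination t * hxy
      rw [this]; exact ht
    · linear_combination (-t * a') * hxy
    · ring
    · ring
    · linear_combination -hxy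
    · ring

end Pool.NR
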