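import Pool.Agent.H53.NR.Common

namespace Pool.NR
namespace B2K

variable {p : ℕ} [Fact p.Prime]

theorem step (a c1 c2 g k a' c1' c2' : ZMod p) (hg : g ≠ 0)
    (ea : a' = g ^ 2 * a) (ec1 : c1' = g * c1 + k * c2) (ec2 : c2' = g * c2) :
    Eq2b (T2b a 0 0 c1 c2 1 1 (-1) 0) (T2b a' 0 0 c1' c2' 1 1 (-1) 0) := by
  subst ea ec1 ec2
  refine C53.mk2b (g ^ 2) 0 0 g 0 k g (pow_ne_zero 2 hg) (by simp [hg])
    ?_ ?_ ?_ ?_ ?_ ?_ ?_ ?_ ?_ <;> ring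

end B2K

theorem b2k (h1 : KREStmt) : B2KStmt := by
  intro p _ a b1 b2 c1 c2 hp
  obtain ⟨a', c, d, s1⟩ : ∃ a' c d, Eq2b (T2b a b1 b2 c1 c2 1 1 (-1) 0)
      (T2b a' 0 0 c d 1 1 (-1) 0) := by
    refine ⟨_, _, _, C53.mk2b 1 (-b2) (b1 - b2) 1 0 0 1 one_ne_zero
      (by simp) (one_mul _) ?_ ?_ (one_mul _) (one_mul _) ?_ ?_ ?_ ?_⟩ <;> ring
  by_cases hd : d = 0
  · subst hd
    by_cases hc : c = 0
    · subst hc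
      obtain ⟨t, ht, hq⟩ := C53.sqScale h1 a'
      refine ⟨_, NF2bK.k1 _ hp hq, C53.trans2b s1 (B2K.step _ _ _ t 0 _ _ _ ht ?_ ?_ ?_)⟩ <;>
        ring
    · refine ⟨_, NF2bK.k2 _ hp, C53.trans2b s1 (B2K.step _ _ _ c⁻¹ 0 _ _ _ (inv_ne_zero hc)
        rfl ?_ ?_)⟩
      · field_simp; ring
      · ring
  · refine ⟨_, NF2bK.k3 _ hp, C53.trans2b s1 (B2K.step _ _ _ d⁻¹ (-d⁻¹ * c / d) _ _ _
      (inv_ne_zero hd) rfl ?_ ?_)⟩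
    · field_simp; ring
    · field_simp

end Pool.NR
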