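import Pool.Agent.H53.NR.Common

namespace Pool.NR
namespace B2M

variable {p : ℕ} [Fact p.Prime]

/-- `x ^ 2 + x y + δ y ^ 2` represents every nonzero element. -/
theorem repr (δ v : ZMod p) (_hδ : δ ≠ 0) (h4 : 4 * δ ≠ 1) (hv : v ≠ 0) :
    ∃ x y : ZMod p, x ^ 2 + x * y + δ * y ^ 2 = v := by
  by_cases hp : p = 2
  · refine ⟨1, 0, ?_⟩
    rcases C53.zero_or_one_of_two hp v with rfl | rfl
    · exact absurd rfl hv
    · ring
  · have h2 := C53.two_ne hp
    have hc : (4 * δ - 1 : ZMod p) ≠ 0 := sub_ne_zero.2 h4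
    have hodd : Fintype.card (ZMod p) % 2 = 1 := by
      rw [ZMod.card]
      exact ((Fact.out : p.Prime).eq_two_or_odd).resolve_left hp
    obtain ⟨x, y, hxy⟩ := FiniteField.exists_root_sum_quadratic
      (R := ZMod p) (f := Polynomial.X ^ 2 - Polynomial.C (4 * v))
      (g := Polynomial.C (4 * δ - 1) * Polynomial.X ^ 2)
      (Polynomial.degree_X_pow_sub_C (by norm_num) _)
      (by rw [Polynomial.degree_C_mul hc, Polynomial.degree_X_pow]; rfl) hodd
    simp at hxy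
    refine ⟨(x - y) / 2, y, ?_⟩
    field_simp
    linear_combination hxy

theorem step (a b1 b2 c1 c2 δ x y a' c1' c2' : ZMod p) (hN : x ^ 2 + x * y + δ * y ^ 2 ≠ 0)
    (hb1 : b1 = 0) (hb2 : b2 = 0)
    (ea : a' = (x ^ 2 + x * y + δ * y ^ 2) * a) (ec1 : c1' = x * c1 + y * c2)
    (ec2 : c2' = -δ * y * c1 + (x + y) * c2) :
    Eq2b (T2b a b1 b2 c1 c2 1 1 0 δ) (T2b a' 0 0 c1' c2' 1 1 0 δ) := by
  subst hb1 hb2 ea ec1 ec2
  refine C53.mk2b (x ^ 2 + x * y + δ * y ^ 2) 0 0 x (-δ * y) y (x + y) hN ?_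
    ?_ ?_ ?_ ?_ ?_ ?_ ?_ ?_ ?_
  · intro h; apply hN; linear_combination h
  all_goals ring

end B2M

theorem b2m : B2MStmt := by
  intro p _ a b1 b2 c1 c2 δ hδ h4
  obtain ⟨a', c, d, s1⟩ : ∃ a' c d, Eq2b (T2b a b1 b2 c1 c2 1 1 0 δ)
      (T2b a' 0 0 c d 1 1 0 δ) := by
    refine ⟨_, _, _, C53.mk2b 1 (-b1) ((b1 - b2) / δ) 1 0 0 1 one_ne_zero
      (by simp) (one_mul _) ?_ ?_ (one_mul _) (one_mul _) ?_ ?_ ?_ ?_⟩
    · ring
    · field_simp; ring
    · ring
    · ring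
    · ring
    · ring
  by_cases h0 : c = 0 ∧ d = 0
  · obtain ⟨rfl, rfl⟩ := h0
    by_cases ha : a' = 0
    · subst ha
      exact ⟨_, NF2bM.m1 δ 0 hδ h4 (Or.inl rfl), s1⟩
    · obtain ⟨x, y, hxy⟩ := B2M.repr δ a'⁻¹ hδ h4 (inv_ne_zero ha)
      refine ⟨_, NF2bM.m1 δ 1 hδ h4 (Or.inr rfl), C53.trans2b s1
        (B2M.step _ _ _ _ _ _ x y _ _ _ ?_ rfl rfl ?_ ?_ ?_)⟩
      · rw [hxy]; exact inv_ne_zero ha
      · rw [hxy]; field_simp
      · ring
      · ring
  · by_cases hN : d ^ 2 - c * d + δ * c ^ 2 = 0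
    · have hc : c ≠ 0 := by
        rintro rfl
        apply h0
        refine ⟨rfl, ?_⟩
        have : d ^ 2 = 0 := by linear_combination hN
        exact pow_eq_zero_iff (two_ne_zero) |>.1 this
      -- r = d / c
      obtain ⟨r, hr⟩ : ∃ r : ZMod p, d = r * c := ⟨d / c, by field_simp⟩
      subst hr
      have hr : r ^ 2 - r + δ = 0 := by
        have : c ^ 2 * (r ^ 2 - r + δ) = 0 := by linear_combination hN
        rcases mul_eq_zero.1 this with h | h
        · exact absurd (pow_eq_zero_iff (two_ne_zero) |>.1 h) hc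
        · exact h
      have hδr : δ = r * (1 - r) := by linear_combination hr
      subst hδr
      have hr0 : r ≠ 0 := by rintro rfl; apply hδ; ring
      have hr1 : 1 - r ≠ 0 := by intro h; apply hδ; rw [h]; ring
      have hw : 2 * r - 1 ≠ 0 := by
        intro h; apply h4; linear_combination (-(2 * r - 1)) * h
      obtain ⟨t, ht, hq⟩ := C53.bitScale a'
      -- e1' = α (r - 1, 1), e2' = β (-r, 1)
      obtain ⟨w, hww⟩ : ∃ w : ZMod p, (2 * r - 1) * w = 1 := ⟨(2 * r - 1)⁻¹, mul_inv_cancel₀ hw⟩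
      obtain ⟨v, hv⟩ : ∃ v : ZMod p, (1 - r) * v = 1 := ⟨(1 - r)⁻¹, mul_inv_cancel₀ hr1⟩
      obtain ⟨k, hk⟩ : ∃ k : ZMod p, c * k = 1 := ⟨c⁻¹, mul_inv_cancel₀ hc⟩
      have hv0 : v ≠ 0 := by rintro rfl; simp at hv
      have hABC : c * k * ((2 * r - 1) * w) * ((1 - r) * v) = 1 := by rw [hk, hww, hv]; ring
      have hAB : c * k * ((2 * r - 1) * w) = 1 := by rw [hk, hww]; ring
      refine ⟨_, NF2bM.m3 (-r * v) _ ?_ ?_ ?_ hq, C53.trans2b s1
        (C53.mk2b t 0 0 (k * w * (r - 1)) (-(t * c * v) * r)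
          (k * w) (t * c * v) ht ?_ ?_ ?_ ?_ ?_ ?_ ?_ ?_ ?_ ?_)⟩
      · exact mul_ne_zero (neg_ne_zero.2 hr0) hv0
      · intro h
        apply hv0; linear_combination hv - h
      · intro h
        apply hw; linear_combination (-(1 - r)) * h - r * hv
      · have : k * w * (r - 1) * (t * c * v) -
          -(t * c * v) * r * (k * w) = t * v := by
          linear_combination t * v * hAB
        rw [this]; exact mul_ne_zero ht hv0
      · ring
      · ring
      · ring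
      · linear_combination (-t) * hAB
      · ring
      · ring
      · linear_combination (-t) * hABC
      · linear_combination (t * r * v) * hAB
      · ring
    · obtain ⟨m, hm⟩ : ∃ m : ZMod p, (d ^ 2 - c * d + δ * c ^ 2) * m = 1 :=
        ⟨(d ^ 2 - c * d + δ * c ^ 2)⁻¹, mul_inv_cancel₀ hN⟩
      refine ⟨_, NF2bM.m2 δ _ hδ h4, C53.trans2b s1
        (B2M.step _ _ _ _ _ _ (d * m) (-c * m) _ _ _ ?_ rfl rfl rfl ?_ ?_)⟩
      · have : (d * m) ^ 2 + d * m * (-c * m) + δ * (-c * m) ^ 2 = m := by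
          linear_combination m * hm
        rw [this]
        rintro rfl
        simp at hm
      · ring
      · linear_combination -hm

end Pool.NR
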