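import Pool.Agent.H53.NR.Common

namespace Pool.NR
namespace B2S

variable {p : ℕ} [Fact p.Prime]

/-- `x ^ 2 + s y ^ 2` represents every nonzero element (`p` odd, or `s = 1`). -/
theorem repr (s v : ZMod p) (hs : s ≠ 0) (hp : p ≠ 2) :
    ∃ x y : ZMod p, x ^ 2 + s * y ^ 2 = v := by
  have hodd : Fintype.card (ZMod p) % 2 = 1 := by
    rw [ZMod.card]
    exact ((Fact.out : p.Prime).eq_two_or_odd).resolve_left hp
  obtain ⟨x, y, hxy⟩ := FiniteField.exists_root_sum_quadratic
    (R := ZMod p) (f := Polynomial.X ^ 2 - Polynomial.C v)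
    (g := Polynomial.C s * Polynomial.X ^ 2)
    (Polynomial.degree_X_pow_sub_C (by norm_num) _)
    (by rw [Polynomial.degree_C_mul hs, Polynomial.degree_X_pow]; rfl) hodd
  simp at hxy
  exact ⟨x, y, by linear_combination hxy⟩

theorem step (a c1 c2 s x y a' c1' c2' : ZMod p) (hN : x ^ 2 + s * y ^ 2 ≠ 0)
    (ea : a' = (x ^ 2 + s * y ^ 2) * a) (ec1 : c1' = x * c1 + y * c2)
    (ec2 : c2' = -s * y * c1 + x * c2) :
    Eq2b (T2b a 0 0 c1 c2 1 0 0 s) (T2b a' 0 0 c1' c2' 1 0 0 s) := by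
  subst ea ec1 ec2
  refine C53.mk2b (x ^ 2 + s * y ^ 2) 0 0 x (-s * y) y x hN ?_
    ?_ ?_ ?_ ?_ ?_ ?_ ?_ ?_ ?_
  · intro h; apply hN; linear_combination h
  all_goals ring

end B2S

theorem b2s (h1 : KR2Stmt) : B2SStmt := by
  intro p _ a b1 b2 c1 c2 s hs
  have hs0 : s ≠ 0 := hs.1
  obtain ⟨a', c, d, s1⟩ : ∃ a' c d, Eq2b (T2b a b1 b2 c1 c2 1 0 0 s)
      (T2b a' 0 0 c d 1 0 0 s) := by
    refine ⟨_, _, _, C53.mk2b 1 (-b1) (-b2 / s) 1 0 0 1 one_ne_zero
      (by simp) (one_mul _) ?_ ?_ (one_mul _) (one_mul _) ?_ ?_ ?_ ?_⟩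
    · ring
    · field_simp; ring
    · ring
    · ring
    · ring
    · ring
  by_cases h0 : c = 0 ∧ d = 0
  · obtain ⟨rfl, rfl⟩ := h0
    by_cases hp : p = 2
    · exact ⟨_, NF2bS.s1 s a' hs (C53.zero_or_one_of_two hp a'), s1⟩
    by_cases ha : a' = 0
    · subst ha
      exact ⟨_, NF2bS.s1 s 0 hs (Or.inl rfl), s1⟩
    · obtain ⟨x, y, hxy⟩ := B2S.repr s a'⁻¹ hs0 hp
      refine ⟨_, NF2bS.s1 s 1 hs (Or.inr rfl), C53.trans2b s1
        (B2S.step _ _ _ _ x y _ _ _ ?_ ?_ ?_ ?_)⟩
      · rw [hxy]; exact inv_ne_zero ha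
      · rw [hxy]; field_simp
      · ring
      · ring
  · by_cases hN : d ^ 2 + s * c ^ 2 = 0
    · have hc : c ≠ 0 := by
        rintro rfl
        apply h0
        refine ⟨rfl, ?_⟩
        have : d ^ 2 = 0 := by linear_combination hN
        exact pow_eq_zero_iff (two_ne_zero) |>.1 this
      by_cases hp : p = 2
      · have hs1 := (h1 p).2 hp s hs
        subst hs1
        have hc1 := (C53.zero_or_one_of_two hp c).resolve_left hc
        have hd1 : d ≠ 0 := by
          rintro rfl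
          rw [hc1] at hN
          simp at hN
        have hd1 := (C53.zero_or_one_of_two hp d).resolve_left hd1
        subst hc1 hd1
        exact ⟨_, NF2bS.s4 a' hp (C53.zero_or_one_of_two hp a'), s1⟩
      have h2 := C53.two_ne hp
      -- r = d / c
      obtain ⟨r, hr⟩ : ∃ r : ZMod p, d = r * c := ⟨d / c, by field_simp⟩
      subst hr
      have hr : s = -r ^ 2 := by
        have : c ^ 2 * (r ^ 2 + s) = 0 := by linear_combination hN
        rcases mul_eq_zero.1 this with h | h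
        · exact absurd (pow_eq_zero_iff (two_ne_zero) |>.1 h) hc
        · linear_combination h
      subst hr
      have hr0 : r ≠ 0 := by rintro rfl; apply hs0; ring
      obtain ⟨t, ht, hq⟩ := C53.bitScale a'
      obtain ⟨w, hww⟩ : ∃ w : ZMod p, 2 * r * c * w = 1 :=
        ⟨(2 * r * c)⁻¹, mul_inv_cancel₀ (by simp [h2, hr0, hc])⟩
      obtain ⟨v, hv⟩ : ∃ v : ZMod p, -2 * r ^ 2 * v = t * (2 * r * c) :=
        ⟨(-2 * r ^ 2)⁻¹ * (t * (2 * r * c)), by field_simp⟩
      have hvw : -2 * r ^ 2 * (v * w) = t := by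
        linear_combination w * hv + t * hww
      have hvw0 : v * w ≠ 0 := by
        intro h; rw [h] at hvw; apply ht; linear_combination -hvw
      refine ⟨_, NF2bS.s3 _ hp hq, C53.trans2b s1
        (C53.mk2b t 0 0 (w * r) (-v * r) w v ht ?_ ?_ ?_ ?_ ?_ ?_ ?_ ?_ ?_ ?_)⟩
      · intro h
        apply hvw0
        have : 2 * r * (v * w) = 0 := by linear_combination h
        rcases mul_eq_zero.1 this with h | h
        · exact absurd h (by simp [h2, hr0])
        · exact h
      · ring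
      · ring
      · ring
      · linear_combination (-t) * hww
      · ring
      · ring
      · linear_combination -hvw
      · linear_combination -hvw
      · ring
    · obtain ⟨m, hm⟩ : ∃ m : ZMod p, (d ^ 2 + s * c ^ 2) * m = 1 :=
        ⟨(d ^ 2 + s * c ^ 2)⁻¹, mul_inv_cancel₀ hN⟩
      refine ⟨_, NF2bS.s2 s _ hs, C53.trans2b s1
        (B2S.step _ _ _ _ (d * m) (-c * m) _ _ _ ?_ rfl ?_ ?_)⟩
      · have : (d * m) ^ 2 + s * (-c * m) ^ 2 = m := by
          linear_combination m * hm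
        rw [this]
        rintro rfl
        simp at hm
      · ring
      · linear_combination -hm

end Pool.NR
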