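import Pool.Agent.H53.NR.Common

namespace Pool.NR

theorem b2x (h1 : F2XStmt) : B2XStmt := by
  intro p _ B
  obtain ⟨g11, g12, g21, g22, r, n11, n12, n21, n22, hd, hr, hn, e1, e2, e3, e4⟩ :=
    h1 p (B 1 1) (B 1 2) (B 2 1) (B 2 2)
  have hB : B = T2b (B 0 0) (B 0 1) (B 0 2) (B 1 0) (B 2 0) (B 1 1) (B 1 2) (B 2 1) (B 2 2) := by
    funext i j
    fin_cases i <;> fin_cases j <;> rfl
  refine ⟨r * B 0 0, g11 * B 0 1 + g21 * B 0 2, g12 * B 0 1 + g22 * B 0 2,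
    g11 * B 1 0 + g21 * B 2 0, g12 * B 1 0 + g22 * B 2 0, n11, n12, n21, n22, hn, ?_⟩
  rw [hB]
  refine C53.mk2b r 0 0 g11 g12 g21 g22 hr hd ?_ ?_ ?_ ?_ ?_ ?_ ?_ ?_ ?_
  · simp [T2b]; ring
  · simp [T2b]
  · simp [T2b]
  · simp [T2b]
  · simp [T2b]
  · linear_combination e1
  · linear_combination e2
  · linear_combination e3
  · linear_combination e4

end Pool.NR
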