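import Pool.Agent.H97.NR.Stmts

namespace Pool.NR.C53

theorem z2_aux : ∀ a : ZMod 2, a = 0 ∨ a = 1 := by decide

theorem z2_aux2 : (2 : ZMod 2) = 0 := by decide

variable {p : ℕ} [Fact p.Prime]

theorem mk2b {a b1 b2 c1 c2 m11 m12 m21 m22 a' b1' b2' c1' c2' m11' m12' m21' m22' : ZMod p}
    (u h1 h2 g11 g12 g21 g22 : ZMod p) (hu : u ≠ 0) (hd : g11 * g22 - g12 * g21 ≠ 0)
    (e00 : u * a' = u * u * a + u * h1 * (b1 + c1) + u * h2 * (b2 + c2) + h1 * h1 * m11 +
      h1 * h2 * (m12 + m21) + h2 * h2 * m22)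
    (e01 : u * b1' = u * (g11 * b1 + g21 * b2) + h1 * g11 * m11 + h1 * g21 * m12 +
      h2 * g11 * m21 + h2 * g21 * m22)
    (e02 : u * b2' = u * (g12 * b1 + g22 * b2) + h1 * g12 * m11 + h1 * g22 * m12 +
      h2 * g12 * m21 + h2 * g22 * m22)
    (e10 : u * c1' = u * (g11 * c1 + g21 * c2) + g11 * h1 * m11 + g11 * h2 * m12 +
      g21 * h1 * m21 + g21 * h2 * m22)
    (e20 : u * c2' = u * (g12 * c1 + g22 * c2) + g12 * h1 * m11 + g12 * h2 * m12 +
      g22 * h1 * m21 + g22 * h2 * m22)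
    (e11 : u * m11' = g11 * g11 * m11 + g11 * g21 * (m12 + m21) + g21 * g21 * m22)
    (e12 : u * m12' = g11 * g12 * m11 + g11 * g22 * m12 + g21 * g12 * m21 + g21 * g22 * m22)
    (e21 : u * m21' = g12 * g11 * m11 + g12 * g21 * m12 + g22 * g11 * m21 + g22 * g21 * m22)
    (e22 : u * m22' = g12 * g12 * m11 + g12 * g22 * (m12 + m21) + g22 * g22 * m22) :
    Eq2b (T2b a b1 b2 c1 c2 m11 m12 m21 m22) (T2b a' b1' b2' c1' c2' m11' m12' m21' m22') := by
  refine ⟨u, h1, h2, g11, g12, g21, g22, hu, hd, ?_⟩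
  intro i j
  fin_cases i <;> fin_cases j <;> simp [T2b, Fin.sum_univ_three]
  · linear_combination e00
  · linear_combination e01
  · linear_combination e02
  · linear_combination e10
  · linear_combination e11
  · linear_combination e12
  · linear_combination e20
  · linear_combination e21
  · linear_combination e22

theorem trans2b {B B' B'' : Fin 3 → Fin 3 → ZMod p} (h : Eq2b B B') (h' : Eq2b B' B'') :
    Eq2b B B'' := by
  obtain ⟨u, h1, h2, g11, g12, g21, g22, hu, hd, hB⟩ := h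
  obtain ⟨u', h1', h2', g11', g12', g21', g22', hu', hd', hB'⟩ := h'
  refine ⟨u * u', h1 * u' + g11 * h1' + g12 * h2', h2 * u' + g21 * h1' + g22 * h2',
    g11 * g11' + g12 * g21', g11 * g12' + g12 * g22', g21 * g11' + g22 * g21',
    g21 * g12' + g22 * g22', mul_ne_zero hu hu', ?_, ?_⟩
  · have := mul_ne_zero hd hd'
    intro hh
    apply this
    linear_combination hh
  · have b00 := hB 0 0
    have b01 := hB 0 1
    have b02 := hB 0 2
    have b10 := hB 1 0
    have b11 := hB 1 1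
    have b12 := hB 1 2
    have b20 := hB 2 0
    have b21 := hB 2 1
    have b22 := hB 2 2
    simp [Fin.sum_univ_three] at b00 b01 b02 b10 b11 b12 b20 b21 b22
    intro i j
    have hij := hB' i j
    fin_cases i <;> fin_cases j <;> simp [Fin.sum_univ_three] at hij ⊢
    · linear_combination u * hij + u' * u' * b00 + u' * h1' * b01 + u' * h2' * b02 + h1' * u' * b10 + h1' * h1' * b11 + h1' * h2' * b12 + h2' * u' * b20 + h2' * h1' * b21 + h2' * h2' * b22
    · linear_combination u * hij + u' * g11' * b01 + u' * g21' * b02 + h1' * g11' * b11 + h1' * g21' * b12 + h2' * g11' * b21 + h2' * g21' * b22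
    · linear_combination u * hij + u' * g12' * b01 + u' * g22' * b02 + h1' * g12' * b11 + h1' * g22' * b12 + h2' * g12' * b21 + h2' * g22' * b22
    · linear_combination u * hij + g11' * u' * b10 + g11' * h1' * b11 + g11' * h2' * b12 + g21' * u' * b20 + g21' * h1' * b21 + g21' * h2' * b22
    · linear_combination u * hij + g11' * g11' * b11 + g11' * g21' * b12 + g21' * g11' * b21 + g21' * g21' * b22
    · linear_combination u * hij + g11' * g12' * b11 + g11' * g22' * b12 + g21' * g12' * b21 + g21' * g22' * b22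
    · linear_combination u * hij + g12' * u' * b10 + g12' * h1' * b11 + g12' * h2' * b12 + g22' * u' * b20 + g22' * h1' * b21 + g22' * h2' * b22
    · linear_combination u * hij + g12' * g11' * b11 + g12' * g21' * b12 + g22' * g11' * b21 + g22' * g21' * b22
    · linear_combination u * hij + g12' * g12' * b11 + g12' * g22' * b12 + g22' * g12' * b21 + g22' * g22' * b22

theorem bitScale (a : ZMod p) : ∃ t : ZMod p, t ≠ 0 ∧ Bit (t * a) := by
  by_cases h : a = 0
  · exact ⟨1, one_ne_zero, Or.inl (by simp [h])⟩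
  · exact ⟨a⁻¹, inv_ne_zero h, Or.inr (inv_mul_cancel₀ h)⟩

theorem sqScale (hK : KREStmt) (a : ZMod p) : ∃ t : ZMod p, t ≠ 0 ∧ Sq0 (t ^ 2 * a) := by
  by_cases h : a = 0
  · exact ⟨1, one_ne_zero, Or.inl (by simp [h])⟩
  · obtain ⟨s, t, hs, ht, e⟩ := hK p 2 a h
    refine ⟨t⁻¹, inv_ne_zero ht, Or.inr ?_⟩
    have : t⁻¹ ^ 2 * a = s := by rw [e]; field_simp
    rw [this]; exact hs

theorem zero_or_one_of_two (hp : p = 2) (a : ZMod p) : a = 0 ∨ a = 1 := by
  subst hp; exact z2_aux a

theorem two_ne (hp : p ≠ 2) : (2 : ZMod p) ≠ 0 := by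
  intro h
  have h2 : ((2 : ℕ) : ZMod p) = 0 := by exact_mod_cast h
  rw [ZMod.natCast_eq_zero_iff] at h2
  have := (Nat.prime_dvd_prime_iff_eq (Fact.out : p.Prime) Nat.prime_two).1 h2
  exact hp this

theorem two_eq (hp : p = 2) : (2 : ZMod p) = 0 := by
  subst hp; exact z2_aux2

end Pool.NR.C53
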