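import Pool.Agent.H97.NR.StmtsC

namespace Pool.NR.C53

theorem cnt_eq_ncard {α : Type*} (P : α → Prop) : cnt P = Set.ncard {x | P x} := rfl

theorem cnt_congr {α : Type*} {P Q : α → Prop} (h : ∀ x, P x ↔ Q x) : cnt P = cnt Q := by
  have : P = Q := funext fun x => propext (h x)
  rw [this]

theorem cnt_or {α : Type*} [Finite α] {P Q : α → Prop} (h : ∀ x, P x → Q x → False) :
    cnt (fun x => P x ∨ Q x) = cnt P + cnt Q := by
  have h1 : Disjoint {x | P x} {x | Q x} := Set.disjoint_left.2 fun x hx hy => h x hx hy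
  exact Set.ncard_union_eq h1 (Set.toFinite _) (Set.toFinite _)

theorem cnt_img {α β : Type*} {P : α → Prop} {f : α → β} (hf : Function.Injective f) :
    cnt (fun y => ∃ x, P x ∧ f x = y) = cnt P := by
  rw [cnt_eq_ncard, cnt_eq_ncard]
  exact Set.ncard_image_of_injective {x | P x} hf

theorem cnt_rng {α β : Type*} {f : α → β} (hf : Function.Injective f) :
    cnt (fun y => ∃ x, f x = y) = Nat.card α := by
  exact (Nat.card_congr (Equiv.ofInjective f hf)).symm

theorem cnt_eq {α : Type*} (a : α) : cnt (fun x => x = a) = 1 := by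
  rw [cnt_eq_ncard]; exact Set.ncard_singleton a

theorem cnt_true {α : Type*} : cnt (fun _ : α => True) = Nat.card α := by
  rw [cnt_eq_ncard]
  simp [Set.ncard_univ]

theorem cnt_false {α : Type*} {P : α → Prop} (h : ∀ x, ¬ P x) : cnt P = 0 := by
  rw [cnt_eq_ncard]
  have : {x | P x} = ∅ := Set.eq_empty_of_forall_notMem h
  rw [this, Set.ncard_empty]

theorem cnt_prod {α β : Type*} {P : α → Prop} {Q : β → Prop} :
    cnt (fun x : α × β => P x.1 ∧ Q x.2) = cnt P * cnt Q := by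
  rw [← Nat.card_prod]
  exact Nat.card_congr
    { toFun := fun x => (⟨x.1.1, x.2.1⟩, ⟨x.1.2, x.2.2⟩)
      invFun := fun y => ⟨(y.1.1, y.2.1), y.1.2, y.2.2⟩
      left_inv := fun x => rfl
      right_inv := fun y => rfl }

theorem T2b_inj {p : ℕ} {a b1 b2 c1 c2 m11 m12 m21 m22 a' b1' b2' c1' c2' m11' m12' m21' m22' :
    ZMod p} : T2b a b1 b2 c1 c2 m11 m12 m21 m22 = T2b a' b1' b2' c1' c2' m11' m12' m21' m22' ↔
    a = a' ∧ b1 = b1' ∧ b2 = b2' ∧ c1 = c1' ∧ c2 = c2' ∧ m11 = m11' ∧ m12 = m12' ∧ m21 = m21' ∧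
      m22 = m22' := by
  constructor
  · intro h
    refine ⟨congrFun (congrFun h 0) 0, congrFun (congrFun h 0) 1, congrFun (congrFun h 0) 2,
      congrFun (congrFun h 1) 0, congrFun (congrFun h 2) 0, congrFun (congrFun h 1) 1,
      congrFun (congrFun h 1) 2, congrFun (congrFun h 2) 1, congrFun (congrFun h 2) 2⟩
  · rintro ⟨rfl, rfl, rfl, rfl, rfl, rfl, rfl, rfl, rfl⟩
    rfl

theorem two0 {p : ℕ} (hp : p = 2) : (2 : ZMod p) = 0 := by
  subst hp; decide

theorem neg1 {p : ℕ} (hp : p = 2) : (-1 : ZMod p) = 1 := by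
  subst hp; decide

theorem z01 {p : ℕ} (hp : p = 2) (x : ZMod p) : x = 0 ∨ x = 1 := by
  subst hp; revert x; decide

variable {p : ℕ} [Fact p.Prime]

instance : Finite (Fin 3 → Fin 3 → ZMod p) := by
  have : NeZero p := ⟨(Fact.out : p.Prime).ne_zero⟩
  infer_instance

end Pool.NR.C53
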