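import Pool.Agent.H53.NR.Common

namespace Pool.NR
namespace F2X

variable {p : ℕ} [Fact p.Prime]

/-- scaled congruence of `2 x 2` forms -/
def Cg (m11 m12 m21 m22 n11 n12 n21 n22 : ZMod p) : Prop :=
  ∃ g11 g12 g21 g22 r : ZMod p, g11 * g22 - g12 * g21 ≠ 0 ∧ r ≠ 0 ∧
    r * n11 = g11 * g11 * m11 + g11 * g21 * m12 + g21 * g11 * m21 + g21 * g21 * m22 ∧
    r * n12 = g11 * g12 * m11 + g11 * g22 * m12 + g21 * g12 * m21 + g21 * g22 * m22 ∧
    r * n21 = g12 * g11 * m11 + g12 * g21 * m12 + g22 * g11 * m21 + g22 * g21 * m22 ∧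
    r * n22 = g12 * g12 * m11 + g12 * g22 * m12 + g22 * g12 * m21 + g22 * g22 * m22

theorem Cg.trans {m11 m12 m21 m22 n11 n12 n21 n22 k11 k12 k21 k22 : ZMod p}
    (h : Cg m11 m12 m21 m22 n11 n12 n21 n22) (h' : Cg n11 n12 n21 n22 k11 k12 k21 k22) :
    Cg m11 m12 m21 m22 k11 k12 k21 k22 := by
  obtain ⟨g11, g12, g21, g22, r, hd, hr, e1, e2, e3, e4⟩ := h
  obtain ⟨g11', g12', g21', g22', r', hd', hr', e1', e2', e3', e4'⟩ := h'
  refine ⟨g11 * g11' + g12 * g21', g11 * g12' + g12 * g22', g21 * g11' + g22 * g21',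
    g21 * g12' + g22 * g22', r * r', ?_, mul_ne_zero hr hr', ?_, ?_, ?_, ?_⟩
  · have := mul_ne_zero hd hd'
    intro hh
    apply this
    linear_combination hh
  · linear_combination r * e1' + g11' * g11' * e1 + g11' * g21' * e2 + g21' * g11' * e3 +
      g21' * g21' * e4
  · linear_combination r * e2' + g11' * g12' * e1 + g11' * g22' * e2 + g21' * g12' * e3 +
      g21' * g22' * e4
  · linear_combination r * e3' + g12' * g11' * e1 + g12' * g21' * e2 + g22' * g11' * e3 +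
      g22' * g21' * e4
  · linear_combination r * e4' + g12' * g12' * e1 + g12' * g22' * e2 + g22' * g12' * e3 +
      g22' * g22' * e4

/-- some value nonzero: reach `n11 = 1`. -/
theorem step1 {m11 m12 m21 m22 x y : ZMod p}
    (h : x * x * m11 + x * y * m12 + y * x * m21 + y * y * m22 ≠ 0) :
    ∃ b c d, Cg m11 m12 m21 m22 1 b c d := by
  by_cases hx : x = 0
  · have hy : y ≠ 0 := by
      rintro rfl; apply h; subst hx; ring
    refine ⟨(x * 1 * m11 + x * 0 * m12 + y * 1 * m21 + y * 0 * m22) /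
      (x * x * m11 + x * y * m12 + y * x * m21 + y * y * m22),
      (1 * x * m11 + 1 * y * m12 + 0 * x * m21 + 0 * y * m22) /
      (x * x * m11 + x * y * m12 + y * x * m21 + y * y * m22),
      (1 * 1 * m11 + 1 * 0 * m12 + 0 * 1 * m21 + 0 * 0 * m22) /
      (x * x * m11 + x * y * m12 + y * x * m21 + y * y * m22),
      x, 1, y, 0, x * x * m11 + x * y * m12 + y * x * m21 + y * y * m22, ?_, h, ?_, ?_, ?_, ?_⟩
    · intro h0; apply hy; linear_combination -h0
    · ring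
    · rw [mul_comm, div_mul_cancel₀ _ h]
    · rw [mul_comm, div_mul_cancel₀ _ h]
    · rw [mul_comm, div_mul_cancel₀ _ h]
  · refine ⟨(x * 0 * m11 + x * 1 * m12 + y * 0 * m21 + y * 1 * m22) /
      (x * x * m11 + x * y * m12 + y * x * m21 + y * y * m22),
      (0 * x * m11 + 0 * y * m12 + 1 * x * m21 + 1 * y * m22) /
      (x * x * m11 + x * y * m12 + y * x * m21 + y * y * m22),
      (0 * 0 * m11 + 0 * 1 * m12 + 1 * 0 * m21 + 1 * 1 * m22) /
      (x * x * m11 + x * y * m12 + y * x * m21 + y * y * m22),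
      x, 0, y, 1, x * x * m11 + x * y * m12 + y * x * m21 + y * y * m22, ?_, h, ?_, ?_, ?_, ?_⟩
    · intro h0; apply hx; linear_combination h0
    · ring
    · rw [mul_comm, div_mul_cancel₀ _ h]
    · rw [mul_comm, div_mul_cancel₀ _ h]
    · rw [mul_comm, div_mul_cancel₀ _ h]

theorem step2 (b c d : ZMod p) : Cg 1 b c d 1 (b - c) 0 (d - b * c) := by
  refine ⟨1, -c, 0, 1, 1, ?_, one_ne_zero, ?_, ?_, ?_, ?_⟩
  · simp
  all_goals ring

theorem step3 (hK : KREStmt) (α d : ZMod p) :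
    ∃ n11 n12 n21 n22, MT n11 n12 n21 n22 ∧ Cg 1 α 0 d n11 n12 n21 n22 := by
  by_cases hα : α = 0
  · subst hα
    by_cases hd : d = 0
    · subst hd
      refine ⟨1, 0, 0, 0, Or.inr (Or.inl ⟨rfl, rfl, rfl, rfl⟩), 1, 0, 0, 1, 1, by simp, one_ne_zero,
        ?_, ?_, ?_, ?_⟩ <;> ring
    · obtain ⟨s, t, hs, ht, e⟩ := hK p 2 d hd
      refine ⟨1, 0, 0, s, Or.inr (Or.inr (Or.inr (Or.inr (Or.inr (Or.inr ⟨rfl, rfl, rfl, hs⟩))))),
        1, 0, 0, t⁻¹, 1, by simpa using ht, one_ne_zero, ?_, ?_, ?_, ?_⟩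
      · ring
      · ring
      · ring
      · rw [e]; field_simp; ring
  · have key : Cg 1 α 0 d 1 1 0 (d / α ^ 2) := by
      refine ⟨1, 0, 0, α⁻¹, 1, by simpa using hα, one_ne_zero, ?_, ?_, ?_, ?_⟩
      · ring
      · field_simp; ring
      · ring
      · field_simp; ring
    generalize d / α ^ 2 = e at key
    by_cases he : e = 0
    · subst he
      refine ⟨0, 1, 0, 0, Or.inr (Or.inr (Or.inl ⟨rfl, rfl, rfl, rfl⟩)), key.trans ?_⟩
      refine ⟨1, 0, -1, 1, 1, by simp, one_ne_zero, ?_, ?_, ?_, ?_⟩ <;> ring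
    · by_cases h4 : 4 * e = 1
      · have hp : p ≠ 2 := by
          intro hp
          have h2 := C53.two_eq hp
          have : (4 : ZMod p) = 2 * 2 := by norm_num
          rw [this, h2] at h4
          simp at h4
        have h2 := C53.two_ne hp
        refine ⟨1, 1, -1, 0, Or.inr (Or.inr (Or.inr (Or.inr (Or.inr (Or.inl
          ⟨hp, rfl, rfl, rfl, rfl⟩))))), key.trans ?_⟩
        refine ⟨1, -1, 0, 2, 1, by simpa using h2, one_ne_zero, ?_, ?_, ?_, ?_⟩
        · ring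
        · ring
        · ring
        · linear_combination -h4
      · exact ⟨1, 1, 0, e, Or.inr (Or.inr (Or.inr (Or.inr (Or.inl ⟨rfl, rfl, rfl, he, h4⟩)))), key⟩

theorem main (hK : KREStmt) (m11 m12 m21 m22 : ZMod p) :
    ∃ n11 n12 n21 n22, MT n11 n12 n21 n22 ∧ Cg m11 m12 m21 m22 n11 n12 n21 n22 := by
  by_cases h : ∃ x y, x * x * m11 + x * y * m12 + y * x * m21 + y * y * m22 ≠ 0
  · obtain ⟨x, y, h⟩ := h
    obtain ⟨b, c, d, h1⟩ := step1 h
    obtain ⟨n11, n12, n21, n22, hn, h3⟩ := step3 hK (b - c) (d - b * c)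
    exact ⟨n11, n12, n21, n22, hn, (h1.trans (step2 b c d)).trans h3⟩
  · push Not at h
    have e1 : m11 = 0 := by simpa using h 1 0
    have e2 : m22 = 0 := by simpa using h 0 1
    have e3 : m21 = - m12 := by
      have := h 1 1
      rw [e1, e2] at this
      linear_combination this
    subst e1 e2 e3
    by_cases hm : m12 = 0
    · subst hm
      refine ⟨0, 0, 0, 0, Or.inl ⟨rfl, rfl, rfl, rfl⟩, 1, 0, 0, 1, 1, by simp, one_ne_zero,
        ?_, ?_, ?_, ?_⟩ <;> ring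
    · refine ⟨0, 1, -1, 0, Or.inr (Or.inr (Or.inr (Or.inl ⟨rfl, rfl, rfl, rfl⟩))),
        1, 0, 0, 1, m12, by simp, hm, ?_, ?_, ?_, ?_⟩ <;> ring

end F2X

theorem f2x (h1 : KREStmt) (_h2 : KR1Stmt) : F2XStmt := by
  intro p _ m11 m12 m21 m22
  obtain ⟨n11, n12, n21, n22, hn, g11, g12, g21, g22, r, hd, hr, e1, e2, e3, e4⟩ :=
    F2X.main h1 m11 m12 m21 m22
  exact ⟨g11, g12, g21, g22, r, n11, n12, n21, n22, hd, hr, hn, e1, e2, e3, e4⟩

end Pool.NR
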