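import Pool.Agent.H53.NR.CommonC

namespace Pool.NR

open C53

theorem m2d (h1 : NPTStmt) : M2DStmt := by
  intro p _
  obtain ⟨hbit, -, -, -, -, -, hodd, hne, hsq⟩ := h1 p
  by_cases hp : p = 2
  · rw [if_pos hp]
    rw [if_pos hp] at hsq
    have hm := neg1 hp
    have e : cnt (NF2bD (p := p)) = cnt (fun B : Fin 3 → Fin 3 → ZMod p =>
        (∃ a : ZMod p, T2b a 0 0 1 0 1 0 0 0 = B) ∨
        (∃ a : ZMod p, Sq0 a ∧ T2b a 0 0 0 0 1 0 0 0 = B) ∨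
        (∃ γ : ZMod p, γ ≠ 1 ∧ T2b 0 0 1 0 γ 1 0 0 0 = B) ∨
        B = T2b 0 0 0 0 1 1 0 0 0 ∨
        (∃ a : ZMod p, Bit a ∧ T2b 0 0 1 a 1 1 0 0 0 = B) ∨
        B = T2b 1 0 1 1 1 1 0 0 0) := by
      apply cnt_congr
      intro B
      constructor
      · intro h
        cases h with
        | d1 a => exact Or.inl ⟨a, rfl⟩
        | d2 a h => exact Or.inr (Or.inl ⟨a, h, rfl⟩)
        | d3 γ h h' => exact Or.inr (Or.inr (Or.inl ⟨γ, h, rfl⟩))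
        | d4 => exact Or.inr (Or.inr (Or.inr (Or.inl rfl)))
        | d5 a h h' => exact absurd hp h
        | d6 s h => exact Or.inr (Or.inr (Or.inr (Or.inr (Or.inl ⟨s, h, rfl⟩))))
        | d7 h => exact Or.inr (Or.inr (Or.inr (Or.inr (Or.inr rfl))))
      · rintro (⟨a, rfl⟩ | ⟨a, h, rfl⟩ | ⟨a, h, rfl⟩ | rfl | ⟨a, h, rfl⟩ | rfl)
        · exact NF2bD.d1 a
        · exact NF2bD.d2 a h
        · exact NF2bD.d3 a h (by rw [hm]; exact h)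
        · exact NF2bD.d4
        · exact NF2bD.d6 a h
        · exact NF2bD.d7 hp
    rw [e, cnt_or, cnt_or, cnt_or, cnt_or, cnt_or, cnt_rng, cnt_img, cnt_img, cnt_img, cnt_eq,
      cnt_eq, hsq, hbit, Nat.card_zmod]
    · have := hne 1
      omega
    · intro a b h; exact (T2b_inj.1 h).2.2.2.1
    · intro a b h; exact (T2b_inj.1 h).2.2.2.2.1
    · intro a b h; exact (T2b_inj.1 h).1
    · intro a b h; exact (T2b_inj.1 h).1
    · rintro _ ⟨a, h, rfl⟩ e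
      rw [T2b_inj] at e
      simp at e
    · rintro _ rfl (⟨b, h', e⟩ | e) <;> rw [T2b_inj] at e <;> simp at e
    · rintro _ ⟨γ, h, rfl⟩ (e | ⟨b, h', e⟩ | e) <;> rw [T2b_inj] at e
      · simp at e
      · exact h e.2.2.2.2.1.symm
      · simp at e
    · rintro _ ⟨a, h, rfl⟩ (⟨b, h', e⟩ | e | ⟨b, h', e⟩ | e) <;> rw [T2b_inj] at e <;> simp at e
    · rintro _ ⟨a, rfl⟩ (⟨b, h', e⟩ | ⟨b, h', e⟩ | e | ⟨b, h', e⟩ | e) <;> rw [T2b_inj] at e <;>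
        simp at e
  · rw [if_neg hp]
    rw [if_neg hp] at hsq
    have e : cnt (NF2bD (p := p)) = cnt (fun B : Fin 3 → Fin 3 → ZMod p =>
        (∃ a : ZMod p, T2b a 0 0 1 0 1 0 0 0 = B) ∨
        (∃ a : ZMod p, Sq0 a ∧ T2b a 0 0 0 0 1 0 0 0 = B) ∨
        (∃ γ : ZMod p, (γ ≠ 1 ∧ γ ≠ -1) ∧ T2b 0 0 1 0 γ 1 0 0 0 = B) ∨
        B = T2b 0 0 0 0 1 1 0 0 0 ∨
        (∃ a : ZMod p, Sq0 a ∧ T2b a 0 1 0 (-1) 1 0 0 0 = B) ∨
        (∃ a : ZMod p, Bit a ∧ T2b 0 0 1 a 1 1 0 0 0 = B)) := by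
      apply cnt_congr
      intro B
      constructor
      · intro h
        cases h with
        | d1 a => exact Or.inl ⟨a, rfl⟩
        | d2 a h => exact Or.inr (Or.inl ⟨a, h, rfl⟩)
        | d3 γ h h' => exact Or.inr (Or.inr (Or.inl ⟨γ, ⟨h, h'⟩, rfl⟩))
        | d4 => exact Or.inr (Or.inr (Or.inr (Or.inl rfl)))
        | d5 a h h' => exact Or.inr (Or.inr (Or.inr (Or.inr (Or.inl ⟨a, h', rfl⟩))))
        | d6 s h => exact Or.inr (Or.inr (Or.inr (Or.inr (Or.inr ⟨s, h, rfl⟩))))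
        | d7 h => exact absurd h hp
      · rintro (⟨a, rfl⟩ | ⟨a, h, rfl⟩ | ⟨a, h, rfl⟩ | rfl | ⟨a, h, rfl⟩ | ⟨a, h, rfl⟩)
        · exact NF2bD.d1 a
        · exact NF2bD.d2 a h
        · exact NF2bD.d3 a h.1 h.2
        · exact NF2bD.d4
        · exact NF2bD.d5 a hp h
        · exact NF2bD.d6 a h
    have hm1 : (-1 : ZMod p) ≠ 1 := by
      intro h
      have h2 : ((2 : ℕ) : ZMod p) = 0 := by
        push_cast
        linear_combination -h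
      rw [ZMod.natCast_eq_zero_iff] at h2
      exact hp ((Nat.prime_dvd_prime_iff_eq (Fact.out : p.Prime) Nat.prime_two).1 h2)
    rw [e, cnt_or, cnt_or, cnt_or, cnt_or, cnt_or, cnt_rng, cnt_img, cnt_img, cnt_img, cnt_img,
      cnt_eq, hsq, hbit, Nat.card_zmod]
    · have := (hodd hp).1
      omega
    · intro a b h; exact (T2b_inj.1 h).2.2.2.1
    · intro a b h; exact (T2b_inj.1 h).1
    · intro a b h; exact (T2b_inj.1 h).2.2.2.2.1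
    · intro a b h; exact (T2b_inj.1 h).1
    · intro a b h; exact (T2b_inj.1 h).1
    · rintro _ ⟨a, h, rfl⟩ ⟨b, h', e⟩
      rw [T2b_inj] at e
      exact hm1 e.2.2.2.2.1.symm
    · rintro _ rfl (⟨b, h', e⟩ | ⟨b, h', e⟩) <;> rw [T2b_inj] at e <;> simp at e
    · rintro _ ⟨γ, h, rfl⟩ (e | ⟨b, h', e⟩ | ⟨b, h', e⟩) <;> rw [T2b_inj] at e
      · simp at e
      · exact h.2 e.2.2.2.2.1.symm
      · exact h.1 e.2.2.2.2.1.symm
    · rintro _ ⟨a, h, rfl⟩ (⟨b, h', e⟩ | e | ⟨b, h', e⟩ | ⟨b, h', e⟩) <;> rw [T2b_inj] at e <;>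
        simp at e
    · rintro _ ⟨a, rfl⟩ (⟨b, h', e⟩ | ⟨b, h', e⟩ | e | ⟨b, h', e⟩ | ⟨b, h', e⟩) <;>
        rw [T2b_inj] at e <;> simp at e

end Pool.NR
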