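import Pool.Agent.H53.NR.CommonC

namespace Pool.NR

open C53

theorem m2j (h1 : NPTStmt) : M2JStmt := by
  intro p _
  obtain ⟨hbit, -, -, -, -, -, -, hne, -⟩ := h1 p
  have e : cnt (NF2bJ (p := p)) = cnt (fun B : Fin 3 → Fin 3 → ZMod p =>
      (∃ a : ZMod p, Bit a ∧ T2b a 0 0 0 0 0 1 (-1) 0 = B) ∨
      (∃ a : ZMod p, Bit a ∧ T2b a 0 0 1 0 0 1 (-1) 0 = B)) := by
    apply cnt_congr
    intro B
    constructor
    · intro h
      cases h with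
      | j1 a h => exact Or.inl ⟨a, h, rfl⟩
      | j2 a h => exact Or.inr ⟨a, h, rfl⟩
    · rintro (⟨a, h, rfl⟩ | ⟨a, h, rfl⟩)
      · exact NF2bJ.j1 a h
      · exact NF2bJ.j2 a h
  rw [e, cnt_or, cnt_img, cnt_img, hbit]
  · intro a b h; exact (T2b_inj.1 h).1
  · intro a b h; exact (T2b_inj.1 h).1
  · rintro _ ⟨a, h, rfl⟩ ⟨b, h', e⟩
    rw [T2b_inj] at e
    simp at e

end Pool.NR
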