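import Pool.Agent.H53.NR.CommonC

namespace Pool.NR

open C53

theorem m2k (h1 : NPTStmt) : M2KStmt := by
  intro p _
  obtain ⟨hbit, -, -, -, -, -, -, hne, hsq⟩ := h1 p
  by_cases hp : p = 2
  · rw [if_pos hp]
    apply cnt_false
    intro B h
    cases h with
    | k1 a h => exact h hp
    | k2 a h => exact h hp
    | k3 a h => exact h hp
  rw [if_neg hp]
  rw [if_neg hp] at hsq
  have e : cnt (NF2bK (p := p)) = cnt (fun B : Fin 3 → Fin 3 → ZMod p =>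
      (∃ a : ZMod p, Sq0 a ∧ T2b a 0 0 0 0 1 1 (-1) 0 = B) ∨
      (∃ a : ZMod p, T2b a 0 0 1 0 1 1 (-1) 0 = B) ∨
      (∃ a : ZMod p, T2b a 0 0 0 1 1 1 (-1) 0 = B)) := by
    apply cnt_congr
    intro B
    constructor
    · intro h
      cases h with
      | k1 a h h' => exact Or.inl ⟨a, h', rfl⟩
      | k2 a h => exact Or.inr (Or.inl ⟨a, rfl⟩)
      | k3 a h => exact Or.inr (Or.inr ⟨a, rfl⟩)
    · rintro (⟨a, h, rfl⟩ | ⟨a, rfl⟩ | ⟨a, rfl⟩)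
      · exact NF2bK.k1 a hp h
      · exact NF2bK.k2 a hp
      · exact NF2bK.k3 a hp
  rw [e, cnt_or, cnt_or, cnt_rng, cnt_rng, cnt_img, hsq, Nat.card_zmod]
  · ring
  · intro a b h; exact (T2b_inj.1 h).1
  · intro a b h; exact (T2b_inj.1 h).1
  · intro a b h; exact (T2b_inj.1 h).1
  · rintro _ ⟨a, rfl⟩ ⟨b, e⟩
    rw [T2b_inj] at e
    simp at e
  · rintro _ ⟨a, h, rfl⟩ (⟨b, e⟩ | ⟨b, e⟩) <;> rw [T2b_inj] at e <;> simp at e

end Pool.NR
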