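import Pool.Agent.H53.NR.CommonC

namespace Pool.NR

open C53

theorem m2m (h1 : NPTStmt) : M2MStmt := by
  intro p _
  obtain ⟨hbit, -, -, -, -, -, hodd, hne, hsq⟩ := h1 p
  have e : cnt (NF2bM (p := p)) = cnt (fun B : Fin 3 → Fin 3 → ZMod p =>
      (∃ x : ZMod p × ZMod p, ((x.1 ≠ 0 ∧ 4 * x.1 ≠ 1) ∧ Bit x.2) ∧
        T2b x.2 0 0 0 0 1 1 0 x.1 = B) ∨
      (∃ x : ZMod p × ZMod p, ((x.1 ≠ 0 ∧ 4 * x.1 ≠ 1) ∧ True) ∧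
        T2b x.2 0 0 0 1 1 1 0 x.1 = B) ∨
      (∃ x : ZMod p × ZMod p, ((x.1 ≠ 0 ∧ x.1 ≠ 1 ∧ x.1 ≠ -1) ∧ Bit x.2) ∧
        T2b x.2 0 0 1 0 0 1 x.1 0 = B)) := by
    apply cnt_congr
    intro B
    constructor
    · intro h
      cases h with
      | m1 δ a h h' h'' => exact Or.inl ⟨(δ, a), ⟨⟨h, h'⟩, h''⟩, rfl⟩
      | m2 δ a h h' => exact Or.inr (Or.inl ⟨(δ, a), ⟨⟨h, h'⟩, trivial⟩, rfl⟩)
      | m3 τ a h h' h'' h3 => exact Or.inr (Or.inr ⟨(τ, a), ⟨⟨h, h', h''⟩, h3⟩, rfl⟩)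
    · rintro (⟨⟨δ, a⟩, h, rfl⟩ | ⟨⟨δ, a⟩, h, rfl⟩ | ⟨⟨τ, a⟩, h, rfl⟩)
      · exact NF2bM.m1 δ a h.1.1 h.1.2 h.2
      · exact NF2bM.m2 δ a h.1.1 h.1.2
      · exact NF2bM.m3 τ a h.1.1 h.1.2.1 h.1.2.2 h.2
  have key : cnt (NF2bM (p := p)) = cnt (fun x : ZMod p => x ≠ 0 ∧ 4 * x ≠ 1) * 2 +
      (cnt (fun x : ZMod p => x ≠ 0 ∧ 4 * x ≠ 1) * p +
      cnt (fun x : ZMod p => x ≠ 0 ∧ x ≠ 1 ∧ x ≠ -1) * 2) := by
    rw [e, cnt_or, cnt_or, cnt_img, cnt_img, cnt_img,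
      cnt_prod (P := fun x : ZMod p => x ≠ 0 ∧ 4 * x ≠ 1) (Q := fun x => Bit x),
      cnt_prod (P := fun x : ZMod p => x ≠ 0 ∧ 4 * x ≠ 1) (Q := fun _ => True),
      cnt_prod (P := fun x : ZMod p => x ≠ 0 ∧ x ≠ 1 ∧ x ≠ -1) (Q := fun x => Bit x),
      cnt_true, hbit, Nat.card_zmod]
    · rintro ⟨a, b⟩ ⟨c, d⟩ h
      have := T2b_inj.1 h
      exact Prod.ext this.2.2.2.2.2.2.2.1 this.1
    · rintro ⟨a, b⟩ ⟨c, d⟩ h
      have := T2b_inj.1 h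
      exact Prod.ext this.2.2.2.2.2.2.2.2 this.1
    · rintro ⟨a, b⟩ ⟨c, d⟩ h
      have := T2b_inj.1 h
      exact Prod.ext this.2.2.2.2.2.2.2.2 this.1
    · rintro _ ⟨a, h, rfl⟩ ⟨b, h', e⟩
      rw [T2b_inj] at e
      simp at e
    · rintro _ ⟨a, h, rfl⟩ (⟨b, h', e⟩ | ⟨b, h', e⟩) <;> rw [T2b_inj] at e <;> simp at e
  by_cases hp : p = 2
  · rw [if_pos hp, if_pos hp]
    have h2 : (2 : ZMod p) = 0 := two0 hp
    have e1 : cnt (fun x : ZMod p => x ≠ 0 ∧ 4 * x ≠ 1) = 1 := by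
      have := hne 0
      have e2 : cnt (fun x : ZMod p => x ≠ 0 ∧ 4 * x ≠ 1) = cnt (fun x : ZMod p => x ≠ 0) := by
        apply cnt_congr
        intro x
        constructor
        · exact fun h => h.1
        · intro h
          refine ⟨h, fun h4 => ?_⟩
          exact one_ne_zero (α := ZMod p) (by linear_combination 2 * x * h2 - h4)
      rw [e2]
      omega
    have e3 : cnt (fun x : ZMod p => x ≠ 0 ∧ x ≠ 1 ∧ x ≠ -1) = 0 := by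
      apply cnt_false
      rintro x ⟨h, h', -⟩
      rcases z01 hp x with rfl | rfl
      · exact h rfl
      · exact h' rfl
    rw [key, e1, e3, hp]
  · rw [if_neg hp, if_neg hp, key]
    obtain ⟨-, h3, h4⟩ := hodd hp
    obtain ⟨q, hq⟩ : ∃ q, p = q + 3 := ⟨p - 3, by omega⟩
    have e1 : cnt (fun x : ZMod p => x ≠ 0 ∧ 4 * x ≠ 1) = q + 1 := by omega
    have e2 : cnt (fun x : ZMod p => x ≠ 0 ∧ x ≠ 1 ∧ x ≠ -1) = q := by omega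
    rw [e1, e2]
    generalize p = r at hq
    subst hq
    ring

end Pool.NR
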