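import Pool.Agent.H53.NR.CommonC

namespace Pool.NR

open C53

theorem m2o (h1 : NPTStmt) : M2OStmt := by
  intro p _
  obtain ⟨hbit, -, -, -, -, -, -, hne, -⟩ := h1 p
  have e : cnt (NF2bO (p := p)) = cnt (fun B : Fin 3 → Fin 3 → ZMod p =>
      B = T2b 0 1 0 0 1 0 0 0 0 ∨ (∃ γ : ZMod p, γ ≠ -1 ∧ T2b 0 1 0 γ 0 0 0 0 0 = B) ∨
      B = T2b 0 0 0 1 0 0 0 0 0 ∨ (∃ a : ZMod p, Bit a ∧ T2b a 1 0 (-1) 0 0 0 0 0 = B) ∨
      (∃ a : ZMod p, Bit a ∧ T2b a 0 0 0 0 0 0 0 0 = B)) := by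
    apply cnt_congr
    intro B
    constructor
    · intro h
      cases h with
      | o1 => exact Or.inl rfl
      | o2 γ h => exact Or.inr (Or.inl ⟨γ, h, rfl⟩)
      | o3 => exact Or.inr (Or.inr (Or.inl rfl))
      | o4 a h => exact Or.inr (Or.inr (Or.inr (Or.inl ⟨a, h, rfl⟩)))
      | o5 a h => exact Or.inr (Or.inr (Or.inr (Or.inr ⟨a, h, rfl⟩)))
    · rintro (rfl | ⟨γ, h, rfl⟩ | rfl | ⟨a, h, rfl⟩ | ⟨a, h, rfl⟩)
      · exact NF2bO.o1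
      · exact NF2bO.o2 γ h
      · exact NF2bO.o3
      · exact NF2bO.o4 a h
      · exact NF2bO.o5 a h
  have hm1 : (-1 : ZMod p) ≠ 0 := by simp
  rw [e, cnt_or, cnt_or, cnt_or, cnt_or, cnt_eq, cnt_eq, cnt_img, cnt_img, cnt_img, hbit]
  · have := hne (-1)
    omega
  · intro a b h; exact (T2b_inj.1 h).1
  · intro a b h; exact (T2b_inj.1 h).1
  · intro a b h; exact (T2b_inj.1 h).2.2.2.1
  · rintro _ ⟨a, h, rfl⟩ ⟨b, h', e⟩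
    rw [T2b_inj] at e
    simp at e
  · rintro _ rfl (⟨b, h', e⟩ | ⟨b, h', e⟩) <;> rw [T2b_inj] at e <;> simp at e
  · rintro _ ⟨γ, h, rfl⟩ (e | ⟨b, h', e⟩ | ⟨b, h', e⟩) <;> rw [T2b_inj] at e
    · simp at e
    · exact h e.2.2.2.1.symm
    · simp at e
  · rintro _ rfl (⟨b, h', e⟩ | e | ⟨b, h', e⟩ | ⟨b, h', e⟩) <;> rw [T2b_inj] at e <;> simp at e

end Pool.NR
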