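import Pool.Agent.H53.NR.CommonC

namespace Pool.NR

open C53

theorem m2s (h0 : NKRStmt) (h1 : NPTStmt) : M2SStmt := by
  intro p _
  obtain ⟨hbit, -, -, -, -, -, hodd, hne, hsq⟩ := h1 p
  have hk := h0 p 2 (by norm_num)
  by_cases hp : p = 2
  · rw [if_pos hp]
    have hk : cnt (fun s : ZMod p => KRep p 2 s) = 1 := by
      rw [hk, hp]; decide
    have e : cnt (NF2bS (p := p)) = cnt (fun B : Fin 3 → Fin 3 → ZMod p =>
        (∃ x : ZMod p × ZMod p, (KRep p 2 x.1 ∧ Bit x.2) ∧ T2b x.2 0 0 0 0 1 0 0 x.1 = B) ∨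
        (∃ x : ZMod p × ZMod p, (KRep p 2 x.1 ∧ True) ∧ T2b x.2 0 0 0 1 1 0 0 x.1 = B) ∨
        (∃ a : ZMod p, Bit a ∧ T2b a 0 0 1 1 1 0 0 1 = B)) := by
      apply cnt_congr
      intro B
      constructor
      · intro h
        cases h with
        | s1 s a h h' => exact Or.inl ⟨(s, a), ⟨h, h'⟩, rfl⟩
        | s2 s a h => exact Or.inr (Or.inl ⟨(s, a), ⟨h, trivial⟩, rfl⟩)
        | s3 a h h' => exact absurd hp h
        | s4 a h h' => exact Or.inr (Or.inr ⟨a, h', rfl⟩)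
      · rintro (⟨⟨s, a⟩, h, rfl⟩ | ⟨⟨s, a⟩, h, rfl⟩ | ⟨a, h, rfl⟩)
        · exact NF2bS.s1 s a h.1 h.2
        · exact NF2bS.s2 s a h.1
        · exact NF2bS.s4 a hp h
    rw [e, cnt_or, cnt_or, cnt_img, cnt_img, cnt_img, 
      cnt_prod (P := fun x : ZMod p => KRep p 2 x) (Q := fun x => Bit x),
      cnt_prod (P := fun x : ZMod p => KRep p 2 x) (Q := fun _ => True), cnt_true, hk, hbit,
      Nat.card_zmod]
    · omega
    · intro a b h; exact (T2b_inj.1 h).1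
    · rintro ⟨a, b⟩ ⟨c, d⟩ h
      have := T2b_inj.1 h
      exact Prod.ext this.2.2.2.2.2.2.2.2 this.1
    · rintro ⟨a, b⟩ ⟨c, d⟩ h
      have := T2b_inj.1 h
      exact Prod.ext this.2.2.2.2.2.2.2.2 this.1
    · rintro _ ⟨a, h, rfl⟩ ⟨b, h', e⟩
      rw [T2b_inj] at e
      simp at e
    · rintro _ ⟨a, h, rfl⟩ (⟨b, h', e⟩ | ⟨b, h', e⟩) <;> rw [T2b_inj] at e <;> simp at e
  · rw [if_neg hp]
    have hk : cnt (fun s : ZMod p => KRep p 2 s) = 2 := by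
      rw [hk]
      have : 2 ∣ p - 1 := by
        have := ((Fact.out : p.Prime).eq_two_or_odd).resolve_left hp
        omega
      exact Nat.gcd_eq_left this
    have e : cnt (NF2bS (p := p)) = cnt (fun B : Fin 3 → Fin 3 → ZMod p =>
        (∃ x : ZMod p × ZMod p, (KRep p 2 x.1 ∧ Bit x.2) ∧ T2b x.2 0 0 0 0 1 0 0 x.1 = B) ∨
        (∃ x : ZMod p × ZMod p, (KRep p 2 x.1 ∧ True) ∧ T2b x.2 0 0 0 1 1 0 0 x.1 = B) ∨
        (∃ a : ZMod p, Bit a ∧ T2b a 0 0 1 0 0 1 1 0 = B)) := by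
      apply cnt_congr
      intro B
      constructor
      · intro h
        cases h with
        | s1 s a h h' => exact Or.inl ⟨(s, a), ⟨h, h'⟩, rfl⟩
        | s2 s a h => exact Or.inr (Or.inl ⟨(s, a), ⟨h, trivial⟩, rfl⟩)
        | s3 a h h' => exact Or.inr (Or.inr ⟨a, h', rfl⟩)
        | s4 a h h' => exact absurd h hp
      · rintro (⟨⟨s, a⟩, h, rfl⟩ | ⟨⟨s, a⟩, h, rfl⟩ | ⟨a, h, rfl⟩)
        · exact NF2bS.s1 s a h.1 h.2
        · exact NF2bS.s2 s a h.1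
        · exact NF2bS.s3 a hp h
    rw [e, cnt_or, cnt_or, cnt_img, cnt_img, cnt_img, 
      cnt_prod (P := fun x : ZMod p => KRep p 2 x) (Q := fun x => Bit x),
      cnt_prod (P := fun x : ZMod p => KRep p 2 x) (Q := fun _ => True), cnt_true, hk, hbit,
      Nat.card_zmod]
    · omega
    · intro a b h; exact (T2b_inj.1 h).1
    · rintro ⟨a, b⟩ ⟨c, d⟩ h
      have := T2b_inj.1 h
      exact Prod.ext this.2.2.2.2.2.2.2.2 this.1
    · rintro ⟨a, b⟩ ⟨c, d⟩ h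
      have := T2b_inj.1 h
      exact Prod.ext this.2.2.2.2.2.2.2.2 this.1
    · rintro _ ⟨a, h, rfl⟩ ⟨b, h', e⟩
      rw [T2b_inj] at e
      simp at e
    · rintro _ ⟨a, h, rfl⟩ (⟨b, h', e⟩ | ⟨b, h', e⟩) <;> rw [T2b_inj] at e <;> simp at e

end Pool.NR
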