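import Pool.Agent.H53.NR.CommonC

namespace Pool.NR

open C53

namespace M2T

variable {p : ℕ} [Fact p.Prime]

theorem pO {B : Fin 3 → Fin 3 → ZMod p} (h : NF2bO B) : B 1 1 = 0 ∧ B 1 2 = 0 := by
  cases h <;> exact ⟨rfl, rfl⟩

theorem pD {B : Fin 3 → Fin 3 → ZMod p} (h : NF2bD B) : B 1 1 = 1 ∧ B 1 2 = 0 ∧ B 2 2 = 0 := by
  cases h <;> exact ⟨rfl, rfl, rfl⟩

theorem pE {B : Fin 3 → Fin 3 → ZMod p} (h : NF2bE B) : B 1 1 = 0 ∧ B 1 2 = 1 ∧ B 2 1 = 0 := by
  cases h <;> exact ⟨rfl, rfl, rfl⟩

theorem pJ {B : Fin 3 → Fin 3 → ZMod p} (h : NF2bJ B) : B 1 1 = 0 ∧ B 1 2 = 1 ∧ B 2 1 = -1 := by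
  cases h <;> exact ⟨rfl, rfl, rfl⟩

theorem pM {B : Fin 3 → Fin 3 → ZMod p} (h : NF2bM B) : B 1 2 = 1 ∧
    ((B 1 1 = 1 ∧ B 2 1 = 0) ∨ (B 1 1 = 0 ∧ B 2 1 ≠ 0 ∧ B 2 1 ≠ 1 ∧ B 2 1 ≠ -1)) := by
  cases h with
  | m1 δ a h h' h'' => exact ⟨rfl, Or.inl ⟨rfl, rfl⟩⟩
  | m2 δ a h h' => exact ⟨rfl, Or.inl ⟨rfl, rfl⟩⟩
  | m3 τ a h h' h'' h3 => exact ⟨rfl, Or.inr ⟨rfl, h, h', h''⟩⟩

theorem pK {B : Fin 3 → Fin 3 → ZMod p} (h : NF2bK B) : B 1 1 = 1 ∧ B 1 2 = 1 ∧ B 2 1 = -1 := by
  cases h <;> exact ⟨rfl, rfl, rfl⟩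

theorem pS {B : Fin 3 → Fin 3 → ZMod p} (h : NF2bS B) : (B 1 1 = 1 ∧ B 1 2 = 0 ∧ B 2 2 ≠ 0) ∨
    (p ≠ 2 ∧ B 1 1 = 0 ∧ B 1 2 = 1 ∧ B 2 1 = 1) := by
  cases h with
  | s1 s a h h' => exact Or.inl ⟨rfl, rfl, h.1⟩
  | s2 s a h => exact Or.inl ⟨rfl, rfl, h.1⟩
  | s3 a h h' => exact Or.inr ⟨h, rfl, rfl, rfl⟩
  | s4 a h h' => exact Or.inl ⟨rfl, rfl, one_ne_zero⟩

theorem m1 (hp : p ≠ 2) : (-1 : ZMod p) ≠ 1 := by
  intro h
  have h2 : ((2 : ℕ) : ZMod p) = 0 := by
    push_cast
    linear_combination -h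
  rw [ZMod.natCast_eq_zero_iff] at h2
  exact hp ((Nat.prime_dvd_prime_iff_eq (Fact.out : p.Prime) Nat.prime_two).1 h2)

end M2T

open M2T in
theorem m2t (hO : M2OStmt) (hD : M2DStmt) (hE : M2EStmt) (hJ : M2JStmt) (hM : M2MStmt)
    (hK : M2KStmt) (hS : M2SStmt) : M2TStmt := by
  intro p _
  have z : (0 : ZMod p) ≠ 1 := zero_ne_one
  have z' : (1 : ZMod p) ≠ 0 := one_ne_zero
  have n : (0 : ZMod p) ≠ -1 := by simp
  have n' : (-1 : ZMod p) ≠ 0 := by simp
  have e : cnt (NF2b (p := p)) = cnt (fun B : Fin 3 → Fin 3 → ZMod p =>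
      NF2bO B ∨ NF2bD B ∨ NF2bE B ∨ NF2bJ B ∨ NF2bM B ∨ NF2bK B ∨ NF2bS B) := by
    apply cnt_congr
    intro B
    constructor
    · intro h
      cases h with
      | o h => exact Or.inl h
      | d h => exact Or.inr (Or.inl h)
      | e h => exact Or.inr (Or.inr (Or.inl h))
      | j h => exact Or.inr (Or.inr (Or.inr (Or.inl h)))
      | m h => exact Or.inr (Or.inr (Or.inr (Or.inr (Or.inl h))))
      | k h => exact Or.inr (Or.inr (Or.inr (Or.inr (Or.inr (Or.inl h)))))
      | s h => exact Or.inr (Or.inr (Or.inr (Or.inr (Or.inr (Or.inr h)))))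
    · rintro (h | h | h | h | h | h | h)
      · exact NF2b.o _ h
      · exact NF2b.d _ h
      · exact NF2b.e _ h
      · exact NF2b.j _ h
      · exact NF2b.m _ h
      · exact NF2b.k _ h
      · exact NF2b.s _ h
  have key : cnt (NF2b (p := p)) = cnt (NF2bO (p := p)) + (cnt (NF2bD (p := p)) +
      (cnt (NF2bE (p := p)) + (cnt (NF2bJ (p := p)) + (cnt (NF2bM (p := p)) +
      (cnt (NF2bK (p := p)) + cnt (NF2bS (p := p))))))) := by
    rw [e, cnt_or, cnt_or, cnt_or, cnt_or, cnt_or, cnt_or]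
    · intro B h h'
      have a := pK h
      rcases pS h' with b | b
      · rw [a.2.1] at b; exact z' b.2.1
      · rw [a.1] at b; exact z' b.2.1
    · rintro B h (h' | h')
      · have a := pM h
        have b := pK h'
        rcases a.2 with c | c
        · rw [c.2] at b; exact n b.2.2
        · rw [c.1] at b; exact z b.1
      · have a := pM h
        rcases pS h' with b | b
        · rw [a.1] at b; exact z' b.2.1
        · rcases a.2 with c | c
          · rw [c.1] at b; exact z' b.2.1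
          · exact c.2.2.1 b.2.2.2
    · rintro B h (h' | h' | h')
      · have a := pJ h
        have b := pM h'
        rcases b.2 with c | c
        · rw [c.1] at a; exact z' a.1
        · exact c.2.2.2 a.2.2
      · have a := pJ h
        have b := pK h'
        rw [a.1] at b; exact z b.1
      · have a := pJ h
        rcases pS h' with b | b
        · rw [a.1] at b; exact z b.1
        · rw [a.2.2] at b; exact m1 b.1 b.2.2.2
    · rintro B h (h' | h' | h' | h')
      · have a := pE h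
        have b := pJ h'
        rw [a.2.2] at b; exact n b.2.2
      · have a := pE h
        have b := pM h'
        rcases b.2 with c | c
        · rw [c.1] at a; exact z' a.1
        · exact c.2.1 a.2.2
      · have a := pE h
        have b := pK h'
        rw [a.1] at b; exact z b.1
      · have a := pE h
        rcases pS h' with b | b
        · rw [a.1] at b; exact z b.1
        · rw [a.2.2] at b; exact z b.2.2.2
    · rintro B h (h' | h' | h' | h' | h')
      · have a := pD h
        have b := pE h'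
        rw [a.1] at b; exact z' b.1
      · have a := pD h
        have b := pJ h'
        rw [a.1] at b; exact z' b.1
      · have a := pD h
        have b := pM h'
        rw [a.2.1] at b; exact z b.1
      · have a := pD h
        have b := pK h'
        rw [a.2.1] at b; exact z b.2.1
      · have a := pD h
        rcases pS h' with b | b
        · exact b.2.2 a.2.2
        · rw [a.1] at b; exact z' b.2.1
    · rintro B h (h' | h' | h' | h' | h' | h')
      · have a := pO h
        have b := pD h'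
        rw [a.1] at b; exact z b.1
      · have a := pO h
        have b := pE h'
        rw [a.2] at b; exact z b.2.1
      · have a := pO h
        have b := pJ h'
        rw [a.2] at b; exact z b.2.1
      · have a := pO h
        have b := pM h'
        rw [a.2] at b; exact z b.1
      · have a := pO h
        have b := pK h'
        rw [a.2] at b; exact z b.2.1
      · have a := pO h
        rcases pS h' with b | b
        · rw [a.1] at b; exact z b.1
        · rw [a.2] at b; exact z b.2.2.1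
  have hM := hM p
  rw [key, hO p, hD p, hE p, hJ p, hK p, hS p]
  by_cases hp : p = 2
  · simp only [if_pos hp] at hM ⊢
    omega
  · simp only [if_neg hp] at hM ⊢
    nlinarith [hM]

end Pool.NR
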